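import Mathlib

set_option autoImplicit false

/-!
# MP_9fd87c_al: finiteness of the system u-invariants

For every field `K` of characteristic not two (in particular for every real field) and every `r`,
`u_r(K) ≤ 2 (r + 1) u'_r(K)`. Hence `u'_r(K) < ∞` implies `u_r(K) < ∞`: this is Q1.
-/

namespace Pool.Agent.Results.MP_9fd87c_al.SystemUInvariants

open Module

universe u

/-- A quadratic map `q : V → K^r` is metabolic if it vanishes identically on a subspace of
dimension at least half the dimension of `V`. -/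
def IsMetabolic {K : Type u} [Field K] {r : ℕ} {V : Type u} [AddCommGroup V] [Module K V]
    (q : QuadraticMap K V (Fin r → K)) : Prop :=
  ∃ U : Submodule K V, (∀ x ∈ U, q x = 0) ∧ finrank K V ≤ 2 * finrank K U

/-- The orthogonal sum `m × q` of `m` copies of the quadratic map `q`: it sends
`(v_1, ..., v_m)` to `q v_1 + ... + q v_m`. -/
noncomputable def copies {K : Type u} [Field K] {r : ℕ} {V : Type u} [AddCommGroup V] [Module K V]
    (m : ℕ) (q : QuadraticMap K V (Fin r → K)) : QuadraticMap K (Fin m → V) (Fin r → K) :=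
  QuadraticMap.pi (fun _ => q)

/-- `u_r(K)`: the supremum of the `n` for which there is an anisotropic quadratic map
`q : K^n → K^r` with `m × q` metabolic for some `m ≥ 1`. -/
noncomputable def sysU (K : Type u) [Field K] (r : ℕ) : ℕ∞ :=
  sSup {N : ℕ∞ | ∃ n : ℕ, N = n ∧ ∃ q : QuadraticMap K (Fin n → K) (Fin r → K),
    (∀ v, q v = 0 → v = 0) ∧ ∃ m : ℕ, 0 < m ∧ IsMetabolic (copies m q)}

/-- `u'_r(K)`: the supremum of the `n` for which there is an anisotropic quadratic map
`q : K^n → K^r` with `2 × q` metabolic. -/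
noncomputable def sysU' (K : Type u) [Field K] (r : ℕ) : ℕ∞ :=
  sSup {N : ℕ∞ | ∃ n : ℕ, N = n ∧ ∃ q : QuadraticMap K (Fin n → K) (Fin r → K),
    (∀ v, q v = 0 → v = 0) ∧ IsMetabolic (copies 2 q)}

section
variable {K : Type u} [Field K] {r : ℕ}

theorem copies_apply {V : Type u} [AddCommGroup V] [Module K V] (m : ℕ)
    (q : QuadraticMap K V (Fin r → K)) (x : Fin m → V) : copies m q x = ∑ i, q (x i) := by
  simp [copies, QuadraticMap.pi_apply]

/-- `q2 = 2 × q` on `V × V`. -/
noncomputable def dbl {V : Type u} [AddCommGroup V] [Module K V]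
    (q : QuadraticMap K V (Fin r → K)) : QuadraticMap K (V × V) (Fin r → K) :=
  QuadraticMap.prod q q

theorem dbl_apply {V : Type u} [AddCommGroup V] [Module K V]
    (q : QuadraticMap K V (Fin r → K)) (x : V × V) : dbl q x = q x.1 + q x.2 := by
  simp [dbl, QuadraticMap.prod_apply]

/-- the complex structure on `V × V` -/
def J {V : Type u} [AddCommGroup V] [Module K V] : (V × V) →ₗ[K] (V × V) where
  toFun x := (-x.2, x.1)
  map_add' x y := by ext <;> simp [add_comm]
  map_smul' c x := by ext <;> simp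

theorem dbl_J {V : Type u} [AddCommGroup V] [Module K V]
    (q : QuadraticMap K V (Fin r → K)) (x : V × V) : dbl q (J (K := K) x) = dbl q x := by
  simp [dbl_apply, J, add_comm]

theorem J_J {V : Type u} [AddCommGroup V] [Module K V] (x : V × V) :
    J (K := K) (J (K := K) x) = -x := by
  simp [J]; rfl

theorem polar_J {V : Type u} [AddCommGroup V] [Module K V]
    (q : QuadraticMap K V (Fin r → K)) (x y : V × V) :
    QuadraticMap.polar (dbl q) (J (K := K) x) y = - QuadraticMap.polar (dbl q) x (J (K := K) y) := by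
  have h1 : QuadraticMap.polar (dbl q) (J (K := K) x) (J (K := K) (J (K := K) y))
      = QuadraticMap.polar (dbl q) x (J (K := K) y) := by
    unfold QuadraticMap.polar
    rw [← map_add, dbl_J, dbl_J, dbl_J]
  rw [J_J, QuadraticMap.polar_neg_right] at h1
  rw [← h1, neg_neg]

theorem polar_self_J (h2 : (2 : K) ≠ 0) {V : Type u} [AddCommGroup V] [Module K V]
    (q : QuadraticMap K V (Fin r → K)) (x : V × V) :
    QuadraticMap.polar (dbl q) x (J (K := K) x) = 0 := by
  have h := polar_J q x x
  rw [QuadraticMap.polar_comm] at h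
  have h' : (2 : K) • QuadraticMap.polar (dbl q) x (J (K := K) x) = 0 := by
    rw [two_smul]
    nth_rewrite 1 [h]
    simp
  exact (smul_eq_zero.1 h').resolve_left h2

/-- `J`-stable totally singular subspaces of `2 × q`. -/
def good {V : Type u} [AddCommGroup V] [Module K V]
    (q : QuadraticMap K V (Fin r → K)) (U : Submodule K (V × V)) : Prop :=
  (∀ x ∈ U, J (K := K) x ∈ U) ∧ ∀ x ∈ U, dbl q x = 0

theorem exists_max {V : Type u} [AddCommGroup V] [Module K V] [FiniteDimensional K V]
    (q : QuadraticMap K V (Fin r → K)) :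
    ∃ U : Submodule K (V × V), good q U ∧ ∀ W : Submodule K (V × V), good q W → U ≤ W → W = U := by
  have hne : ({U : Submodule K (V × V) | good q U}).Nonempty := by
    refine ⟨⊥, ?_, ?_⟩
    · intro x hx
      rw [Submodule.mem_bot] at hx ⊢
      rw [hx, map_zero]
    · intro x hx
      rw [Submodule.mem_bot] at hx
      rw [hx, QuadraticMap.map_zero]
  obtain ⟨U, hU, hm⟩ := (wellFounded_gt (α := Submodule K (V × V))).has_min _ hne
  refine ⟨U, hU, fun W hW hle => ?_⟩
  rcases hle.eq_or_lt with h | h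
  · exact h.symm
  · exact absurd h (hm W hW)

theorem polar_zero_of_good {V : Type u} [AddCommGroup V] [Module K V]
    {q : QuadraticMap K V (Fin r → K)} {U : Submodule K (V × V)} (hU : good q U)
    {x y : V × V} (hx : x ∈ U) (hy : y ∈ U) : QuadraticMap.polar (dbl q) x y = 0 := by
  unfold QuadraticMap.polar
  rw [hU.2 _ (U.add_mem hx hy), hU.2 _ hx, hU.2 _ hy]
  simp

/-- A zero of `2 × q` orthogonal to a maximal `J`-stable totally singular subspace lies in it. -/
theorem mem_of_max (h2 : (2 : K) ≠ 0) {V : Type u} [AddCommGroup V] [Module K V]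
    {q : QuadraticMap K V (Fin r → K)} {U : Submodule K (V × V)} (hU : good q U)
    (hmax : ∀ W : Submodule K (V × V), good q W → U ≤ W → W = U)
    {x : V × V} (hx : dbl q x = 0) (hp : ∀ y ∈ U, QuadraticMap.polar (dbl q) x y = 0) : x ∈ U := by
  have hpJ : ∀ y ∈ U, QuadraticMap.polar (dbl q) (J (K := K) x) y = 0 := by
    intro y hy
    rw [polar_J, hp _ (hU.1 y hy), neg_zero]
  let W : Submodule K (V × V) := U ⊔ Submodule.span K {x, J (K := K) x}
  have hW : good q W := by
    constructor
    · intro y hy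
      obtain ⟨a, ha, b, hb, rfl⟩ := Submodule.mem_sup.1 hy
      obtain ⟨s, t, rfl⟩ := Submodule.mem_span_pair.1 hb
      rw [map_add]
      refine Submodule.add_mem_sup (hU.1 a ha) ?_
      rw [map_add, map_smul, map_smul, J_J]
      refine Submodule.mem_span_pair.2 ⟨-t, s, ?_⟩
      simp [add_comm]
    · intro y hy
      obtain ⟨a, ha, b, hb, rfl⟩ := Submodule.mem_sup.1 hy
      obtain ⟨s, t, rfl⟩ := Submodule.mem_span_pair.1 hb
      have e1 : dbl q (s • x + t • J (K := K) x) = 0 := by
        rw [QuadraticMap.map_add (dbl q), QuadraticMap.map_smul, QuadraticMap.map_smul, dbl_J, hx,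
          QuadraticMap.polar_smul_left, QuadraticMap.polar_smul_right, polar_self_J h2]
        simp
      rw [QuadraticMap.map_add (dbl q), hU.2 a ha, e1, QuadraticMap.polar_comm,
        QuadraticMap.polar_add_left, QuadraticMap.polar_smul_left, QuadraticMap.polar_smul_left,
        hp a ha, hpJ a ha]
      simp
  have := hmax W hW le_sup_left
  rw [← this]
  exact Submodule.mem_sup_right (Submodule.subset_span (by simp))

/-- transport: the bound `B` for `u'_r` bounds the dimension of `J`-stable totally singular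
subspaces of `2 × q` for anisotropic `q`. -/
theorem finrank_le_of_good {B : ℕ}
    (hB : ∀ (n : ℕ) (p : QuadraticMap K (Fin n → K) (Fin r → K)), (∀ v, p v = 0 → v = 0) →
      IsMetabolic (copies 2 p) → n ≤ B)
    {V : Type u} [AddCommGroup V] [Module K V] [FiniteDimensional K V]
    {q : QuadraticMap K V (Fin r → K)} (hq : ∀ v, q v = 0 → v = 0)
    {U : Submodule K (V × V)} (hU : good q U) : finrank K U ≤ B := by
  classical
  let W : Submodule K V := U.map (LinearMap.fst K V V)
  have hinj : ∀ x ∈ U, x.1 = 0 → x = 0 := by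
    intro x hx h0
    have h := hU.2 x hx
    rw [dbl_apply, h0, QuadraticMap.map_zero, zero_add] at h
    exact Prod.ext h0 (hq _ h)
  have h1 : ∀ x : U, (x : V × V).1 ∈ W := fun x => ⟨x, x.2, rfl⟩
  have h3 : ∀ x : U, (x : V × V).2 ∈ W := by
    intro x
    have := h1 ⟨J (K := K) x, hU.1 x x.2⟩
    have h' : -(x : V × V).2 ∈ W := this
    exact (Submodule.neg_mem_iff W).1 h'
  -- dim W = dim U
  let f : U →ₗ[K] W := LinearMap.codRestrict W ((LinearMap.fst K V V).comp U.subtype) h1
  have hf : Function.Bijective f := by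
    constructor
    · rw [← LinearMap.ker_eq_bot, LinearMap.ker_eq_bot']
      intro x hx
      have : (x : V × V).1 = 0 := congrArg Subtype.val hx
      exact Subtype.ext (hinj x x.2 this)
    · rintro ⟨w, x, hx, rfl⟩
      exact ⟨⟨x, hx⟩, rfl⟩
  have hdim : finrank K U = finrank K W := (LinearEquiv.ofBijective f hf).finrank_eq
  let n := finrank K W
  let e : W ≃ₗ[K] (Fin n → K) := (finBasis K W).equivFun
  let p : QuadraticMap K (Fin n → K) (Fin r → K) := (q.comp W.subtype).comp (e.symm : _ →ₗ[K] _)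
  have hp : ∀ v, p v = q ((e.symm v : W) : V) := fun v => rfl
  have hpan : ∀ v, p v = 0 → v = 0 := by
    intro v hv
    rw [hp] at hv
    have := hq _ hv
    have h' : e.symm v = 0 := Subtype.ext this
    exact e.symm.map_eq_zero_iff.1 h'
  have hmet : IsMetabolic (copies 2 p) := by
    let g : U →ₗ[K] (Fin 2 → Fin n → K) :=
      LinearMap.pi ![(e : W →ₗ[K] (Fin n → K)).comp f,
        (e : W →ₗ[K] (Fin n → K)).comp
          (LinearMap.codRestrict W ((LinearMap.snd K V V).comp U.subtype) h3)]
    have hg : Function.Injective g := by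
      rw [← LinearMap.ker_eq_bot, LinearMap.ker_eq_bot']
      intro x hx
      have h0 : e (f x) = 0 := congrFun hx 0
      have h0' : f x = 0 := e.map_eq_zero_iff.1 h0
      exact (map_eq_zero_iff f hf.1).1 h0'
    refine ⟨LinearMap.range g, ?_, ?_⟩
    · rintro _ ⟨x, rfl⟩
      rw [copies_apply, Fin.sum_univ_two, hp, hp]
      have ha : e.symm (g x 0) = f x := e.symm_apply_apply _
      have hb : e.symm (g x 1) = (⟨(x : V × V).2, h3 x⟩ : W) := e.symm_apply_apply _
      rw [ha, hb]
      have := hU.2 x x.2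
      rw [dbl_apply] at this
      exact this
    · rw [LinearMap.finrank_range_of_inj hg, hdim]
      rw [finrank_pi_fintype]
      simp [n]
  have := hB n p hpan hmet
  rw [hdim]
  exact this

/-- One doubling step. -/
theorem step (h2 : (2 : K) ≠ 0) {B : ℕ}
    (hB : ∀ (n : ℕ) (p : QuadraticMap K (Fin n → K) (Fin r → K)), (∀ v, p v = 0 → v = 0) →
      IsMetabolic (copies 2 p) → n ≤ B)
    {V : Type u} [AddCommGroup V] [Module K V] [FiniteDimensional K V]
    (q : QuadraticMap K V (Fin r → K)) (hq : ∀ v, q v = 0 → v = 0) :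
    ∃ C : Submodule K (V × V), (∀ x ∈ C, dbl q x = 0 → x = 0) ∧
      ∀ (κ : Type) [Fintype κ] (T : Submodule K (κ → V × V)),
        ∃ S : Submodule K (κ → C), (∀ y ∈ S, (fun k => ((y k : C) : V × V)) ∈ T) ∧
          finrank K T ≤ finrank K S + Fintype.card κ * ((r + 1) * B) := by
  classical
  obtain ⟨U, hU, hmax⟩ := exists_max q
  have hUB := finrank_le_of_good hB hq hU
  obtain ⟨g, hg⟩ := LinearMap.exists_leftInverse_of_injective U.subtype (Submodule.ker_subtype U)
  have hg' : ∀ x : U, g x = x := fun x => LinearMap.congr_fun hg x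
  -- the linear map whose kernel is `C`
  let pol : (V × V) →ₗ[K] (U →ₗ[K] (Fin r → K)) :=
    ((LinearMap.lcomp K (Fin r → K) U.subtype).comp (QuadraticMap.polarBilin (dbl q)))
  have hpol : ∀ (x : V × V) (y : U), pol x y = QuadraticMap.polar (dbl q) x y := fun x y => rfl
  let Ψ : (V × V) →ₗ[K] (U →ₗ[K] (Fin r → K)) × U := pol.prod g
  let C : Submodule K (V × V) := LinearMap.ker Ψ
  have hC : ∀ x ∈ C, (∀ y ∈ U, QuadraticMap.polar (dbl q) x y = 0) ∧ g x = 0 := by
    intro x hx
    have hx' : Ψ x = 0 := hx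
    have h1 : pol x = 0 := congrArg Prod.fst hx'
    have h3 : g x = 0 := congrArg Prod.snd hx'
    refine ⟨fun y hy => ?_, h3⟩
    have := LinearMap.congr_fun h1 ⟨y, hy⟩
    exact this
  refine ⟨C, ?_, ?_⟩
  · intro x hx h0
    have hxU := mem_of_max h2 hU hmax h0 (hC x hx).1
    have := hg' ⟨x, hxU⟩
    have h5 : g x = ⟨x, hxU⟩ := this
    rw [(hC x hx).2] at h5
    exact (congrArg Subtype.val h5).symm
  · intro κ _ T
    let G : T →ₗ[K] (κ → (U →ₗ[K] (Fin r → K)) × U) :=
      (LinearMap.pi (fun k => Ψ.comp (LinearMap.proj k))).comp T.subtype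
    have hG : ∀ (x : T) (k : κ), G x k = Ψ ((x : κ → V × V) k) := fun x k => rfl
    let inc : (κ → C) →ₗ[K] (κ → V × V) := LinearMap.pi (fun k => C.subtype.comp (LinearMap.proj k))
    let S : Submodule K (κ → C) := T.comap inc
    refine ⟨S, fun y hy => hy, ?_⟩
    -- ker G injects into S
    have hk : ∀ (x : LinearMap.ker G) (k : κ), ((x : T) : κ → V × V) k ∈ C := by
      intro x k
      have hx : G x = 0 := x.2
      have := congrFun hx k
      rw [hG] at this
      exact this
    let φ : LinearMap.ker G →ₗ[K] (κ → C) :=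
      LinearMap.pi (fun k => LinearMap.codRestrict C
        ((LinearMap.proj k).comp (T.subtype.comp (LinearMap.ker G).subtype)) (fun x => hk x k))
    let φ' : LinearMap.ker G →ₗ[K] S := LinearMap.codRestrict S φ (fun x => (x : T).2)
    have hφ' : Function.Injective φ' := by
      intro x y hxy
      have h1 : φ x = φ y := congrArg Subtype.val hxy
      apply Subtype.ext
      apply Subtype.ext
      funext k
      exact congrArg Subtype.val (congrFun h1 k)
    have hle : finrank K (LinearMap.ker G) ≤ finrank K S := LinearMap.finrank_le_finrank_of_injective hφ'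
    have hrk := LinearMap.finrank_range_add_finrank_ker G
    have hr : finrank K (LinearMap.range G) ≤ finrank K (κ → (U →ₗ[K] (Fin r → K)) × U) :=
      Submodule.finrank_le _
    have hr' : finrank K (κ → (U →ₗ[K] (Fin r → K)) × U)
        = Fintype.card κ * (finrank K U * r + finrank K U) := by
      rw [finrank_pi_fintype, Finset.sum_const, Finset.card_univ, finrank_prod,
        finrank_linearMap]
      simp
    have hb : finrank K U * r + finrank K U ≤ (r + 1) * B := by nlinarith
    have hb' := Nat.mul_le_mul_left (Fintype.card κ) hb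
    omega

/-- Totally singular subspaces of `2^k × q`, `q` anisotropic, have dimension at most
`(2^k - 1) (r + 1) B`. -/
theorem main (h2 : (2 : K) ≠ 0) {B : ℕ}
    (hB : ∀ (n : ℕ) (p : QuadraticMap K (Fin n → K) (Fin r → K)), (∀ v, p v = 0 → v = 0) →
      IsMetabolic (copies 2 p) → n ≤ B) (k : ℕ) :
    ∀ (V : Type u) [AddCommGroup V] [Module K V] [FiniteDimensional K V]
      (q : QuadraticMap K V (Fin r → K)), (∀ v, q v = 0 → v = 0) →
      ∀ T : Submodule K (Fin (2 ^ k) → V), (∀ x ∈ T, ∑ i, q (x i) = 0) →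
        finrank K T + (r + 1) * B ≤ 2 ^ k * ((r + 1) * B) := by
  induction k with
  | zero =>
    intro V _ _ _ q hq T hT
    have hbot : T = ⊥ := by
      rw [eq_bot_iff]
      intro x hx
      have h := hT x hx
      rw [Submodule.mem_bot]
      have hx0 : q (x 0) = 0 := by
        simpa [Fin.sum_univ_one] using h
      funext i
      have hi : i = 0 := Subsingleton.elim (α := Fin 1) _ _
      rw [hi]
      exact hq _ hx0
    rw [hbot]
    simp
  | succ k ih =>
    intro V _ _ _ q hq T hT
    obtain ⟨C, hC, hstep⟩ := step h2 hB q hq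
    -- reindex
    let ε : Fin (2 ^ k) ⊕ Fin (2 ^ k) ≃ Fin (2 ^ (k + 1)) :=
      finSumFinEquiv.trans (finCongr (by rw [pow_succ]; ring))
    let E : (Fin (2 ^ (k + 1)) → V) →ₗ[K] (Fin (2 ^ k) → V × V) :=
      LinearMap.pi (fun j => (LinearMap.proj (ε (Sum.inl j))).prod (LinearMap.proj (ε (Sum.inr j))))
    have hE : ∀ x j, E x j = (x (ε (Sum.inl j)), x (ε (Sum.inr j))) := fun x j => rfl
    have hEinj : Function.Injective E := by
      intro x y hxy
      funext i
      obtain ⟨s, rfl⟩ := ε.surjective i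
      rcases s with j | j
      · have := congrFun hxy j
        rw [hE, hE] at this
        exact (Prod.ext_iff.1 this).1
      · have := congrFun hxy j
        rw [hE, hE] at this
        exact (Prod.ext_iff.1 this).2
    obtain ⟨S, hS, hdim⟩ := hstep (Fin (2 ^ k)) (T.map E)
    have hTE : finrank K (T.map E) = finrank K T :=
      (Submodule.equivMapOfInjective E hEinj T).finrank_eq.symm
    have hsing : ∀ y ∈ S, ∑ j, ((dbl q).comp C.subtype) (y j) = 0 := by
      intro y hy
      obtain ⟨x, hx, hxy⟩ := hS y hy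
      have h := hT x hx
      rw [← ε.sum_comp, Fintype.sum_sum_type, ← Finset.sum_add_distrib] at h
      rw [← h]
      refine Finset.sum_congr rfl fun j _ => ?_
      have h1 := congrFun hxy j
      rw [hE] at h1
      have h3 : ((dbl q).comp C.subtype) (y j) = dbl q ((y j : C) : V × V) := rfl
      rw [h3, ← h1, dbl_apply]
    have := ih C ((dbl q).comp C.subtype) (fun v hv => Subtype.ext (hC v v.2 hv)) S hsing
    rw [hTE, Fintype.card_fin] at hdim
    have e : 2 ^ (k + 1) * ((r + 1) * B) = 2 ^ k * ((r + 1) * B) + 2 ^ k * ((r + 1) * B) := by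
      rw [pow_succ]; ring
    omega

/-- The same for at most `2^k` copies, indexed by any finite type. -/
theorem main' (h2 : (2 : K) ≠ 0) {B : ℕ}
    (hB : ∀ (n : ℕ) (p : QuadraticMap K (Fin n → K) (Fin r → K)), (∀ v, p v = 0 → v = 0) →
      IsMetabolic (copies 2 p) → n ≤ B) (k : ℕ)
    {V : Type u} [AddCommGroup V] [Module K V] [FiniteDimensional K V]
    (q : QuadraticMap K V (Fin r → K)) (hq : ∀ v, q v = 0 → v = 0)
    {ι : Type} [Fintype ι] (hι : Fintype.card ι ≤ 2 ^ k)
    (T : Submodule K (ι → V)) (hT : ∀ x ∈ T, ∑ i, q (x i) = 0) :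
    finrank K T + (r + 1) * B ≤ 2 ^ k * ((r + 1) * B) := by
  classical
  obtain ⟨c, hc⟩ := Nat.exists_eq_add_of_le hι
  let ε : ι ⊕ Fin c ≃ Fin (2 ^ k) := Fintype.equivOfCardEq (by simp [hc])
  let Z : (ι → V) →ₗ[K] (Fin (2 ^ k) → V) :=
    { toFun := fun x i => Sum.elim x (fun _ => (0 : V)) (ε.symm i)
      map_add' := by
        intro x y
        funext i
        rcases h : ε.symm i with j | j <;> simp [h]
      map_smul' := by
        intro a x
        funext i
        rcases h : ε.symm i with j | j <;> simp [h] }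
  have hZ : ∀ x s, Z x (ε s) = Sum.elim x (fun _ => (0 : V)) s := by
    intro x s
    change Sum.elim x (fun _ => (0 : V)) (ε.symm (ε s)) = _
    rw [ε.symm_apply_apply]
  have hZinj : Function.Injective Z := by
    intro x y hxy
    funext i
    have := congrFun hxy (ε (Sum.inl i))
    rw [hZ, hZ] at this
    exact this
  have h := main h2 hB k V q hq (T.map Z) (by
    rintro _ ⟨x, hx, rfl⟩
    rw [← ε.sum_comp, Fintype.sum_sum_type]
    simp only [hZ, Sum.elim_inl, Sum.elim_inr, QuadraticMap.map_zero, Finset.sum_const_zero,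
      add_zero]
    exact hT x hx)
  rwa [← (Submodule.equivMapOfInjective Z hZinj T).finrank_eq] at h

/-- The bound: an anisotropic quadratic map `q : K^n → K^r` with `m × q` metabolic, `m ≥ 1`, has
`n ≤ 2 (r + 1) B`. -/
theorem bound (h2 : (2 : K) ≠ 0) {B : ℕ}
    (hB : ∀ (n : ℕ) (p : QuadraticMap K (Fin n → K) (Fin r → K)), (∀ v, p v = 0 → v = 0) →
      IsMetabolic (copies 2 p) → n ≤ B) {n m : ℕ} (hm : 0 < m)
    (q : QuadraticMap K (Fin n → K) (Fin r → K)) (hq : ∀ v, q v = 0 → v = 0)
    (hmet : IsMetabolic (copies m q)) : n ≤ 2 * (r + 1) * B := by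
  classical
  obtain ⟨T0, hT0, hd⟩ := hmet
  have hd' : m * n ≤ 2 * finrank K T0 := by
    refine le_trans (le_of_eq ?_) hd
    rw [finrank_pi_fintype]
    simp
  have key : ∀ l k : ℕ, l * m ≤ 2 ^ k → l * finrank K T0 + (r + 1) * B ≤ 2 ^ k * ((r + 1) * B) := by
    intro l k hlk
    let g : (Fin l → T0) →ₗ[K] (Fin l × Fin m → Fin n → K) :=
      LinearMap.pi (fun s => (LinearMap.proj s.2).comp (T0.subtype.comp (LinearMap.proj s.1)))
    have hg : ∀ x s, g x s = ((x s.1 : T0) : Fin m → Fin n → K) s.2 := fun x s => rfl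
    have hginj : Function.Injective g := by
      intro x y hxy
      funext j
      apply Subtype.ext
      funext i
      exact congrFun hxy (j, i)
    have h := main' h2 hB k q hq (ι := Fin l × Fin m) (by simpa using hlk) (LinearMap.range g) (by
      rintro _ ⟨x, rfl⟩
      rw [Fintype.sum_prod_type]
      refine Finset.sum_eq_zero fun j _ => ?_
      have := hT0 _ (x j).2
      rw [copies_apply] at this
      exact this)
    rw [LinearMap.finrank_range_of_inj hginj, finrank_pi_fintype] at h
    simpa using h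
  by_contra hlt
  push Not at hlt
  set D := 2 * (r + 1) * B with hD
  let k := m * (D + 1)
  have hk : m * (D + 1) < 2 ^ k := Nat.lt_two_pow_self
  let l := 2 ^ k / m
  have hl : l * m ≤ 2 ^ k := Nat.div_mul_le_self _ _
  have hl2 : 2 ^ k < m * (l + 1) := Nat.lt_mul_div_succ (2 ^ k) hm
  have hDl : D + 1 ≤ l := by
    refine (Nat.le_div_iff_mul_le hm).2 ?_
    rw [mul_comm]
    exact hk.le
  have h := key l k hl
  have h1 : l * (m * n) ≤ l * (2 * finrank K T0) := Nat.mul_le_mul_left _ hd'
  have h3 : l * (m * (D + 1)) ≤ l * (m * n) := Nat.mul_le_mul_left _ (Nat.mul_le_mul_left _ hlt)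
  have h4 : 2 * (l * finrank K T0) + D ≤ 2 ^ k * D := by
    have h6 : 2 * (l * finrank K T0 + (r + 1) * B) ≤ 2 * (2 ^ k * ((r + 1) * B)) :=
      Nat.mul_le_mul_left _ h
    have h7 : 2 * (2 ^ k * ((r + 1) * B)) = 2 ^ k * D := by rw [hD]; ring
    have h8 : 2 * (l * finrank K T0 + (r + 1) * B) = 2 * (l * finrank K T0) + D := by rw [hD]; ring
    omega
  have h5 : 2 ^ k * D ≤ (m * (l + 1)) * D := Nat.mul_le_mul_right _ hl2.le
  have hDm : m * (D + 1) ≤ m * l := Nat.mul_le_mul_left _ hDl
  have e1 : l * (m * (D + 1)) = m * l * D + m * l := by ring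
  have e2 : (m * (l + 1)) * D = m * l * D + m * D := by ring
  have e3 : m * (D + 1) = m * D + m := by ring
  have e4 : l * (2 * finrank K T0) = 2 * (l * finrank K T0) := by ring
  omega

end

/-- The comparison of the two invariants: `u_r(K) ≤ 2 (r + 1) u'_r(K)` in characteristic not two. -/
theorem sysU_le {K : Type u} [Field K] (h2 : (2 : K) ≠ 0) (r : ℕ) :
    sysU K r ≤ 2 * (r + 1) * sysU' K r := by
  by_cases htop : sysU' K r = ⊤
  · rw [htop, ENat.mul_top (by simp)]
    exact le_top
  · obtain ⟨B, hBe⟩ := ENat.ne_top_iff_exists.1 htop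
    have hB : ∀ (n : ℕ) (p : QuadraticMap K (Fin n → K) (Fin r → K)), (∀ v, p v = 0 → v = 0) →
        IsMetabolic (copies 2 p) → n ≤ B := by
      intro n p hp hm
      have h : (n : ℕ∞) ≤ sysU' K r := le_sSup ⟨n, rfl, p, hp, hm⟩
      rw [← hBe] at h
      exact_mod_cast h
    rw [← hBe]
    refine sSup_le ?_
    rintro _ ⟨n, rfl, q, hq, m, hm, hmet⟩
    have := bound h2 hB hm q hq hmet
    exact_mod_cast this

/-- **Answer to Q1 (yes).** If `-1` is not a sum of squares in `K` (`K` is real) and `r ≥ 2`, then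
`u'_r(K) < ∞` implies `u_r(K) < ∞`. Moreover `u_r(K) ≤ 2 (r + 1) u'_r(K)` for every field `K` of
characteristic not two and every `r`. -/
theorem result :
    (∀ (K : Type u) [Field K], ¬ IsSumSq (-1 : K) → ∀ r : ℕ, 2 ≤ r →
      sysU' K r < ⊤ → sysU K r < ⊤) ∧
    (∀ (K : Type u) [Field K], (2 : K) ≠ 0 → ∀ r : ℕ, sysU K r ≤ 2 * (r + 1) * sysU' K r) := by
  refine ⟨?_, fun K _ h2 r => sysU_le h2 r⟩
  intro K _ hreal r _ hfin
  have h2 : (2 : K) ≠ 0 := by
    intro h
    apply hreal
    have h1 : (-1 : K) = 1 * 1 := by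
      have : (1 : K) + 1 = 0 := by rw [one_add_one_eq_two, h]
      rw [mul_one]
      exact (eq_neg_of_add_eq_zero_left this).symm
    rw [h1]
    exact IsSumSq.mul_self 1
  refine lt_of_le_of_lt (sysU_le h2 r) ?_
  obtain ⟨B, hB⟩ := ENat.ne_top_iff_exists.1 hfin.ne
  rw [← hB]
  exact_mod_cast (ENat.natCast_lt_top (2 * (r + 1) * B))

end Pool.Agent.Results.MP_9fd87c_al.SystemUInvariants
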